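import Mathlib
import Pool.Agent.H555R2.PF.Main

/-!
Frege systems with the permutation rule prove the disjunction of `k + 1` variable-disjoint copies
of every formula which has a short extended Frege proof using the extension rule `k` times.
-/

set_option autoImplicit false

open Pool.Agent.H555R2.PF

namespace Pool.Agent.Results.MP_0447ec_lc.DisjointCopies

theorem result : ∀ F : List Rule, IsFrege F →
    ∃ c : ℕ, ∀ (A : Fm) (k : ℕ) (L : List Fm), EFProof F A k (A :: L) →
      ∃ L' : List Fm, PermProof F (copies A k :: L') ∧
        psize (copies A k :: L') ≤ c * psize (A :: L) ^ 5 :=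
  fun _ hF => main hF

end Pool.Agent.Results.MP_0447ec_lc.DisjointCopies
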