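import Pool.Agent.H543R3.PP.Final

/-!
The permutation rule on dual-rail tautologies: Frege + permutation is polynomially equivalent to
substitution Frege restricted to `O(n log s)` variables; in particular it simulates all extended
Frege proofs with `O(n log s)` extension steps.
-/

set_option autoImplicit false

namespace Pool.Agent.Results.MP_0447ec_lc.DualRailCharacterisation

open Pool.Agent.H555R2.PF Pool.Agent.H543R3.PP

/-- Let `F` be a Frege system. Below `A` is a formula in the variables `p₀, …, p_{n-1}`, and
`dualRail n A` is the formula `(p₀ ≢ p_n) → ⋯ → (p_{n-1} ≢ p_{2n-1}) → A`.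
(1) If `A` has an extended Frege proof of size `s` with at most `b n` uses of the extension rule,
then `dualRail n A` has a proof of size `(s + n + 2 ^ b) ^ c` in Frege + permutation.
(2) The same if `A` has a substitution Frege proof of size `s` all lines of which are formulas in
`K ≤ (b + 1) n / 2` variables.
(3) Conversely, if `dualRail n A` has a proof of size at most `2 ^ l` in Frege + permutation, then
`A` has a substitution Frege proof of size `2 ^ (c l)` all lines of which are formulas in the
`n l` variables `p₀, …, p_{nl-1}`.
(4) Frege + permutation simulates extended Frege on the formulas `dualRail n A` if and only if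
substitution Frege with `O(n log s)` variables simulates extended Frege on the formulas `A` in `n`
variables; and this holds if Frege + permutation simulates extended Frege. -/
theorem result {F : List Rule} (hF : IsFrege F) :
    (∃ c : ℕ, ∀ (n b k : ℕ) (A : Fm) (L : List Fm), (∀ x ∈ A.vars, x < n) →
      k ≤ b * n → EFProof F A k (A :: L) →
      ∃ L', PermProof F (dualRail n A :: L') ∧
        psize (dualRail n A :: L') ≤ (psize (A :: L) + n + 2 ^ b) ^ c) ∧
    (∃ c : ℕ, ∀ (n b K : ℕ) (A : Fm) (L : List Fm), (∀ x ∈ A.vars, x < n) →
      2 * K ≤ (b + 1) * n → SubProof F K (A :: L) →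
      ∃ L', PermProof F (dualRail n A :: L') ∧
        psize (dualRail n A :: L') ≤ (psize (A :: L) + n + 2 ^ b) ^ c) ∧
    (∃ c : ℕ, ∀ (n l : ℕ) (A : Fm) (L : List Fm), (∀ x ∈ A.vars, x < n) → 1 ≤ l →
      PermProof F (dualRail n A :: L) → psize (dualRail n A :: L) ≤ 2 ^ l →
      ∃ L', SubProof F (n * l) (A :: L') ∧ psize (A :: L') ≤ 2 ^ (l * c)) ∧
    (SimDR F ↔ FewVars F) ∧ (SimEF F → FewVars F) :=
  final hF

end Pool.Agent.Results.MP_0447ec_lc.DualRailCharacterisation
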