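import Pool.Agent.H586T.Final3

set_option autoImplicit false

namespace Pool.Agent.Results.MP_0447ec_lc.FewVariables

open Pool.Agent.H555R2.PF Pool.Agent.H586P

theorem mono_of_perm {F : List Rule} (S : Set Bool) {L : List Fm} (h : PermProof F L) :
    MonoProof F S L := by
  induction h with
  | nil => exact MonoProof.nil
  | rule _ hB ih => exact MonoProof.rule ih hB
  | perm _ hB ih => exact MonoProof.perm ih hB

theorem msim_of_psim {F : List Rule} (S : Set Bool) (h : PSim F) : MSim F S := by
  obtain ⟨c, hc⟩ := h
  refine ⟨c, fun A k L hL => ?_⟩
  obtain ⟨L', h1, h2⟩ := hc A k L hL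
  exact ⟨L', mono_of_perm S h1, h2⟩

/-- For every Frege system `F` the following are equivalent:
(1) `F` + permutation polynomially simulates extended Frege;
(2) `F` + permutation + the substitutions `p := p ∧ ψ` polynomially simulates extended Frege;
(3) `F` + permutation + the substitutions `p := p ∨ ψ` polynomially simulates extended Frege;
(4) substitution Frege with `O(n + log s)` variables polynomially simulates extended Frege, where
`s` is the size of the extended Frege proof and `n` the number of variables of its last line. -/
theorem result (F : List Rule) (hF : IsFrege F) :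
    List.TFAE [PSim F, MSim F {false}, MSim F {true}, LSim F] := by
  have h12 : PSim F → MSim F {false} := msim_of_psim _
  have h13 : PSim F → MSim F {true} := msim_of_psim _
  have h21 : MSim F {false} → PSim F := (final2 F hF).2.1 false
  have h31 : MSim F {true} → PSim F := (final2 F hF).2.1 true
  have h14 : PSim F ↔ LSim F := final3 F hF
  tfae_have 1 → 2 := h12
  tfae_have 2 → 1 := h21
  tfae_have 1 → 3 := h13
  tfae_have 3 → 1 := h31
  tfae_have 1 ↔ 4 := h14
  tfae_finish

end Pool.Agent.Results.MP_0447ec_lc.FewVariables
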