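import Pool.Agent.H586P.Final

set_option autoImplicit false

namespace Pool.Agent.Results.MP_0447ec_lc.SubexponentialSimulation

open Pool.Agent.H555R2.PF Pool.Agent.H555R2.PF.Fm

/-- **Frege + permutation simulates extended Frege in subexponential size.**
For every Frege system `F` there is a constant `C` such that for every extended Frege proof of a
formula `A` which has size `s` and uses the extension rule `k` times (`A` has `n` variables),
there is a proof of `A` in Frege + permutation of size at most
`s ^ C * 2 ^ (C * √(k * log₂ (n + 2)))`, and of size at most `2 ^ (C * √(s * log₂ s))`. -/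
theorem result (F : List Rule) (hF : IsFrege F) : ∃ C : ℕ, ∀ (A : Fm) (k : ℕ) (L : List Fm),
    EFProof F A k (A :: L) → ∃ L' : List Fm, PermProof F (A :: L') ∧
      psize (A :: L') ≤
        psize (A :: L) ^ C * 2 ^ (C * Nat.sqrt (k * Nat.log 2 (A.vars.card + 2))) ∧
      psize (A :: L') ≤ 2 ^ (C * Nat.sqrt (psize (A :: L) * Nat.log 2 (psize (A :: L)))) := by
  obtain ⟨C, hC⟩ := Pool.Agent.H586P.final F hF
  refine ⟨C, fun A k L hL => ?_⟩
  obtain ⟨-, ⟨L₁, h₁, b₁⟩, L₂, h₂, b₂⟩ := hC A k L hL
  rcases le_total (psize (A :: L₁)) (psize (A :: L₂)) with h | h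
  · exact ⟨L₁, h₁, b₁, h.trans b₂⟩
  · exact ⟨L₂, h₂, h.trans b₁, b₂⟩

end Pool.Agent.Results.MP_0447ec_lc.SubexponentialSimulation
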